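import Pool.Agent.ABC3.Stmts

set_option autoImplicit false

/-!
# `1 - e` is a sum of relative traces (MP_4e0dfc_co, squad ABC3, row RPJ)
-/

namespace Pool.Agent.ABC3.H65

open Matrix Pool.Agent.ABC3

theorem Tr_neg {K Q B : Type} [Field K] [AddCommGroup Q] [Module K Q] [Fintype B] [DecidableEq B]
    (S : Sys K Q B) (q : Q) (g : Matrix B B K) : Tr S q (-g) = -Tr S q g := by
  unfold Tr
  simp only [mul_neg, neg_mul]
  abel

theorem rpj (hTRC : TRCStmt) : RPJStmt := by
  intro K Q B _ _ _ _ _ _ S ι _ ev hEP hev hChi e he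
  obtain ⟨hee, hdeg, hcom, htr, -⟩ := he
  obtain ⟨a, g, hg, hsum⟩ := hEP e hdeg hcom
  have hq : ∀ c, ∃ q, ev c q = 1 := by
    intro c
    obtain ⟨q, hq⟩ : ∃ q, ev c q ≠ 0 := by
      by_contra h
      push Not at h
      exact hev c (LinearMap.ext h)
    exact ⟨(ev c q)⁻¹ • q, by rw [map_smul, smul_eq_mul, inv_mul_cancel₀ hq]⟩
  choose q0 hq0 using hq
  have htrace : Matrix.trace e = a * Matrix.trace (1 : Matrix B B K) := by
    have h1 := hsum q0 hq0
    have h2 := congrArg Matrix.trace h1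
    rw [Matrix.trace_add, Matrix.trace_smul, Matrix.trace_sum,
      Finset.sum_eq_zero fun c _ => (hTRC K Q B S).1 (q0 c) (g c), add_zero, smul_eq_mul] at h2
    exact h2
  have h3 := hChi.2 e e hdeg hcom hdeg hcom
  rw [hee] at h3
  have h4 : Matrix.trace (1 : Matrix B B K) = Matrix.trace e := mul_left_cancel₀ htr h3
  have ha : a = 1 := by
    rw [h4] at htrace
    have h5 : (1 : K) * Matrix.trace e = a * Matrix.trace e := by rw [one_mul]; exact htrace
    exact (mul_right_cancel₀ htr h5).symm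
  refine ⟨fun c => -g c, fun c => ⟨?_, ?_⟩, ?_⟩
  · intro s s' h
    apply (hg c).1 s s'
    intro h0
    apply h
    show -(g c s s') = 0
    rw [h0, neg_zero]
  · intro p hp
    show S.act p * (-g c) = (-g c) * S.act p
    rw [mul_neg, neg_mul, (hg c).2 p hp]
  · intro q hq
    have h1 := hsum q hq
    rw [ha, one_smul] at h1
    rw [Finset.sum_congr rfl fun c _ => Tr_neg S (q c) (g c), Finset.sum_neg_distrib]
    nth_rewrite 1 [h1]
    abel

end Pool.Agent.ABC3.H65
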