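import Pool.Agent.ABC3.Stmts

set_option autoImplicit false

/-!
# The step for the bottom degree (MP_4e0dfc_co, squad ABC3, row STB)
-/

namespace Pool.Agent.ABC3.H65

open Matrix Pool.Agent.ABC3

namespace B

section comb
variable {ι ι' : Type} (σ : ι' ⊕ Unit ≃ ι)

/-- put together a state of `ι'` and a bit -/
def comb (x : St ι') (y : St Unit) : St ι := fun i => Sum.elim x y (σ.symm i)

theorem comb_inl (x : St ι') (y : St Unit) : (fun i => comb σ x y (σ (Sum.inl i))) = x := by
  funext i
  simp [comb]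

theorem comb_inr (x : St ι') (y : St Unit) : (fun i => comb σ x y (σ (Sum.inr i))) = y := by
  funext i
  simp [comb]

/-- the bijection -/
def combE : St ι' × St Unit ≃ St ι where
  toFun p := comb σ p.1 p.2
  invFun s := (fun i => s (σ (Sum.inl i)), fun i => s (σ (Sum.inr i)))
  left_inv p := by
    rcases p with ⟨x, y⟩
    simp only [comb_inl, comb_inr]
  right_inv s := by
    funext i
    show Sum.elim (fun i => s (σ (Sum.inl i))) (fun i => s (σ (Sum.inr i))) (σ.symm i) = s i
    obtain ⟨z, hz⟩ : ∃ z, z = σ.symm i := ⟨_, rfl⟩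
    rw [← hz]
    have : σ z = i := by rw [hz, Equiv.apply_symm_apply]
    rcases z with z | z
    · simp [← this]
    · simp [← this]

variable [Fintype ι] [DecidableEq ι] [Fintype ι'] [DecidableEq ι'] {K : Type} [Field K]

/-- the component of a vector -/
def comp (K : Type) [Field K] (y : St Unit) : (St ι → K) →ₗ[K] (St ι' → K) where
  toFun u := fun x => u (comb σ x y)
  map_add' u v := rfl
  map_smul' a u := rfl

theorem comp_apply (y : St Unit) (u : St ι → K) (x : St ι') :
    comp σ K y u x = u (comb σ x y) := rfl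

theorem kr_mulVec (A : Matrix (St ι') (St ι') K) (C : Matrix (St Unit) (St Unit) K) (u : St ι → K)
    (y : St Unit) : comp σ K y ((kr σ A C).mulVec u) =
      A.mulVec (∑ y' : St Unit, C y y' • comp σ K y' u) := by
  funext x
  rw [comp_apply]
  show ∑ s, kr σ A C (comb σ x y) s * u s = ∑ x', A x x' * (∑ y' : St Unit, C y y' • comp σ K y' u) x'
  rw [← Equiv.sum_comp (combE σ), Fintype.sum_prod_type]
  refine Finset.sum_congr rfl fun x' _ => ?_
  rw [Finset.sum_apply, Finset.mul_sum]
  refine Finset.sum_congr rfl fun y' _ => ?_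
  show kr σ A C (comb σ x y) (comb σ x' y') * u (comb σ x' y') = A x x' * (C y y' * u (comb σ x' y'))
  unfold kr
  rw [comb_inl, comb_inr, comb_inl, comb_inr]
  ring

theorem comp_kr_one (A : Matrix (St ι') (St ι') K) (u : St ι → K) (y : St Unit) :
    comp σ K y ((kr σ A 1).mulVec u) = A.mulVec (comp σ K y u) := by
  rw [kr_mulVec]
  congr 1
  rw [Finset.sum_eq_single y]
  · rw [Matrix.one_apply_eq, one_smul]
  · intro y' _ h
    rw [Matrix.one_apply_ne h.symm, zero_smul]
  · intro h
    exact absurd (Finset.mem_univ _) h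

theorem comp_one_kr (C : Matrix (St Unit) (St Unit) K) (u : St ι → K) (y : St Unit) :
    comp σ K y ((kr σ 1 C).mulVec u) = ∑ y' : St Unit, C y y' • comp σ K y' u := by
  rw [kr_mulVec, Matrix.one_mulVec]

theorem ext_comp {u v : St ι → K} (h : ∀ y, comp σ K y u = comp σ K y v) : u = v := by
  funext s
  obtain ⟨⟨x, y⟩, rfl⟩ := (combE σ).surjective s
  exact congrFun (h y) x

end comb

section bit
variable {K : Type} [Field K]

/-- the two states of a bit -/
def ff : St Unit := fun _ => false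

/-- the two states of a bit -/
def tt : St Unit := fun _ => true

theorem bit_cases (y : St Unit) : y = ff ∨ y = tt := by
  rcases h : y () with _ | _
  · left; funext i; exact h
  · right; funext i; exact h

theorem ff_ne_tt : ff ≠ tt := fun h => by
  have := congrFun h ()
  simp [ff, tt] at this

theorem sum_bit {M : Type} [AddCommMonoid M] (f : St Unit → M) : ∑ y, f y = f ff + f tt := by
  have h : (Finset.univ : Finset (St Unit)) = {ff, tt} := by
    ext y
    simp only [Finset.mem_univ, Finset.mem_insert, Finset.mem_singleton, true_iff]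
    exact bit_cases y
  rw [h, Finset.sum_pair ff_ne_tt]

theorem mu_bit (w : Unit → K) (y y' : St Unit) :
    mu w y y' = if y = tt ∧ y' = ff then w () else 0 := by
  rw [mu_def, Matrix.sum_apply, Fintype.sum_unique]
  show w () * (if y' () = false ∧ y = Function.update y' () true then (1 : K) else 0) = _
  have h1 : ∀ z : St Unit, Function.update z () true = tt := by
    intro z
    funext i
    simp [tt]
  have h2 : (y' () = false) ↔ y' = ff := by
    constructor
    · intro h; funext i; exact h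
    · intro h; rw [h]; rfl
  rw [h1]
  by_cases ha : y = tt
  · by_cases hb : y' = ff
    · rw [if_pos ⟨h2.mpr hb, ha⟩, if_pos ⟨ha, hb⟩, mul_one]
    · rw [if_neg (fun h => hb (h2.mp h.1)), if_neg (fun h => hb h.2), mul_zero]
  · rw [if_neg (fun h => ha h.2), if_neg (fun h => ha h.1), mul_zero]

theorem sdeg_ff : sdeg ff = 0 := by
  unfold sdeg
  simp [ff]

theorem sdeg_tt : sdeg tt = 1 := by
  unfold sdeg
  simp [tt]

end bit

section hom
variable {K B : Type} [Field K] [Fintype B] [DecidableEq B]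

theorem homV_mulVec {deg : B → ℤ} {M : Matrix B B K} (hM : HasDeg deg 0 M) {d : ℤ} {v : B → K}
    (hv : HomV deg d v) : HomV deg d (M.mulVec v) := by
  intro s hs
  obtain ⟨s', -, hs'⟩ := Finset.exists_ne_zero_of_sum_ne_zero hs
  have h1 : M s s' ≠ 0 := fun h => hs' (by simp [h])
  have h2 : v s' ≠ 0 := fun h => hs' (by simp [h])
  rw [hM s s' h1, hv s' h2, add_zero]

end hom

end B

open B in
theorem stb (hBON : BONStmt) (hKRS : KRSStmt) (hCPX : CPXStmt) (hCHI : CHIStmt) (hEPT : EPTStmt)
    (hTR1 : TR1Stmt) : STBStmt := by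
  intro K Q _ _ _ _ _ ι ι' _ _ _ _ σ ev hev hn hGood hStar e he
  obtain ⟨ev', hev'⟩ : ∃ ev' : ι' → (Q →ₗ[K] K), ev' = fun i => ev (σ (Sum.inl i)) := ⟨_, rfl⟩
  rw [← hev'] at hGood hStar
  obtain ⟨a, ha⟩ : ∃ a : Q →ₗ[K] K, a = ev (σ (Sum.inr ())) := ⟨_, rfl⟩
  -- the cap of the smaller family
  have hEP' : EP (TSys ev') ev' := hEPT K Q ι' ev'
  have hChi' : Chi (TSys ev') := hCHI K Q (St ι') (TSys ev') ι' ev' hEP'
    (fun c => by rw [hev']; exact hev _) (hTR1 K ι')
  obtain ⟨e', he'⟩ := hCPX K Q (St ι') (TSys ev') hChi'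
  obtain ⟨hLowA, -⟩ := hGood e' he'
  have hStar' := hStar e' he'
  obtain ⟨hee', hdeg', hcom', htr', -⟩ := he'
  obtain ⟨hkmul, hk1, hktr, hkdeg, hkmu, hkhd⟩ := hKRS K ι ι' Unit σ
  obtain ⟨hee, hdeg, hcom, htr, hmin⟩ := he
  -- the operator F
  obtain ⟨F, hF⟩ : ∃ F : Matrix (St ι) (St ι) K, F = kr σ e' 1 := ⟨_, rfl⟩
  have hone : HasDeg sdeg 0 (1 : Matrix (St Unit) (St Unit) K) := by
    intro s s' h
    have : s = s' := by
      by_contra hne
      exact h (Matrix.one_apply_ne hne)
    rw [this, add_zero]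
  have hFdeg : HasDeg sdeg 0 F := by
    rw [hF]
    have := hkhd 0 0 e' 1 hdeg' hone
    rwa [add_zero] at this
  have hact : ∀ q : Q, (TSys ev).act q = kr σ ((TSys ev').act q) 1 +
      kr σ 1 (mu (fun i : Unit => ev (σ (Sum.inr i)) q)) := by
    intro q
    rw [TSys_act, TSys_act, hkmu (fun c => ev c q), hev']
  have hFcom : ∀ q : Q, (TSys ev).act q * F = F * (TSys ev).act q := by
    intro q
    rw [hact, hF, add_mul, mul_add, hkmul, hkmul, hkmul, hkmul, hcom' q trivial]
    simp only [one_mul, mul_one]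
  have hFtr : Matrix.trace F ≠ 0 := by
    rw [hF, hktr]
    exact mul_ne_zero htr' (hTR1 K Unit)
  obtain ⟨α, β, ⟨hαd, hαc⟩, ⟨hβd, hβc⟩, hαβ⟩ := hmin F hFdeg (fun q _ => hFcom q) hFtr
  have hFF : F * F = F := by rw [hF, hkmul, hee', one_mul]
  intro d hd
  have hcard : (Fintype.card ι : ℤ) = Fintype.card ι' + 1 := by
    have := Fintype.card_congr σ
    rw [Fintype.card_sum, Fintype.card_unit] at this
    rw [← this]
    push_cast
    rfl
  have hd' : 2 * d = thr (Fintype.card ι') (Module.finrank K Q) + 1 := by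
    rw [hd]
    unfold thr
    rw [hcard]
    ring
  -- the vectors `F β v`
  have hw1 : ∀ v, v ∈ Cd (TSys ev) e d → HomV sdeg d ((F * β).mulVec v) := by
    intro v hv
    rw [← Matrix.mulVec_mulVec]
    exact homV_mulVec hFdeg (homV_mulVec hβd hv.1)
  have hw2 : ∀ v : St ι → K, F.mulVec ((F * β).mulVec v) = (F * β).mulVec v := by
    intro v
    rw [Matrix.mulVec_mulVec, ← mul_assoc, hFF]
  have hw3 : ∀ v, v ∈ Cd (TSys ev) e d → α.mulVec ((F * β).mulVec v) = v := by
    intro v hv
    rw [Matrix.mulVec_mulVec, ← mul_assoc, hαβ]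
    exact hv.2
  -- components
  have hcF : ∀ (v : St ι → K) (y : St Unit), e'.mulVec (comp σ K y ((F * β).mulVec v)) =
      comp σ K y ((F * β).mulVec v) := by
    intro v y
    rw [← comp_kr_one, ← hF, hw2]
  have hdegc : ∀ x y, sdeg (comb σ x y) = sdeg x + sdeg y := by
    intro x y
    rw [hkdeg, comb_inl, comb_inr]
  have hc0 : ∀ v, v ∈ Cd (TSys ev) e d → comp σ K ff ((F * β).mulVec v) ∈ Cd (TSys ev') e' d := by
    intro v hv
    refine ⟨?_, hcF v ff⟩
    intro x hx
    have := hw1 v hv _ hx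
    rw [hdegc, sdeg_ff, add_zero] at this
    exact this
  have hc1 : ∀ v, v ∈ Cd (TSys ev) e d → comp σ K tt ((F * β).mulVec v) = 0 := by
    intro v hv
    refine hLowA (d - 1) (by linarith) _ ?_ (hcF v tt)
    intro x hx
    have := hw1 v hv _ hx
    rw [hdegc, sdeg_tt] at this
    show sdeg x = d - 1
    linarith
  -- the map j
  obtain ⟨j, hj⟩ : ∃ j : Cd (TSys ev) e d →ₗ[K] Cd (TSys ev') e' d,
      ∀ v, ((j v : Cd (TSys ev') e' d) : St ι' → K) = comp σ K ff ((F * β).mulVec v) :=
    ⟨{ toFun := fun v => ⟨comp σ K ff ((F * β).mulVec v), hc0 v v.2⟩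
       map_add' := fun v w => by
        apply Subtype.ext
        show comp σ K ff ((F * β).mulVec ((v : St ι → K) + w)) = _
        rw [Matrix.mulVec_add, map_add]
        rfl
       map_smul' := fun c v => by
        apply Subtype.ext
        show comp σ K ff ((F * β).mulVec (c • (v : St ι → K))) = _
        rw [Matrix.mulVec_smul, map_smul]
        rfl }, fun v => rfl⟩
  have hjinj : Function.Injective j := by
    rw [injective_iff_map_eq_zero]
    intro v hv
    apply Subtype.ext
    rw [← hw3 v v.2]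
    have h1 : (F * β).mulVec (v : St ι → K) = 0 := by
      apply ext_comp σ
      intro y
      rcases bit_cases y with rfl | rfl
      · rw [← hj, hv, map_zero]
        rfl
      · rw [hc1 v v.2, map_zero]
    rw [h1, Matrix.mulVec_zero]
    rfl
  -- the action in components
  have hFβ : ∀ q : Q, (F * β) * (TSys ev).act q = (TSys ev).act q * (F * β) := by
    intro q
    rw [mul_assoc, ← hβc q trivial, ← mul_assoc, ← hFcom, mul_assoc]
  have hact0 : ∀ (q : Q) (u : St ι → K), comp σ K ff (((TSys ev).act q).mulVec u) =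
      ((TSys ev').act q).mulVec (comp σ K ff u) := by
    intro q u
    rw [hact, Matrix.add_mulVec, map_add, comp_kr_one, comp_one_kr]
    rw [sum_bit, mu_bit, mu_bit, if_neg (fun h => ff_ne_tt h.1), if_neg (fun h => ff_ne_tt h.1),
      zero_smul, zero_smul, add_zero, add_zero]
  have hact1 : ∀ (q : Q) (u : St ι → K), comp σ K tt (((TSys ev).act q).mulVec u) =
      ((TSys ev').act q).mulVec (comp σ K tt u) + a q • comp σ K ff u := by
    intro q u
    rw [hact, Matrix.add_mulVec, map_add, comp_kr_one, comp_one_kr]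
    rw [sum_bit, mu_bit, mu_bit, if_pos ⟨rfl, rfl⟩, if_neg (fun h => ff_ne_tt h.2.symm),
      zero_smul, add_zero, ha]
  -- the tensor maps
  obtain ⟨J, hJ⟩ : ∃ J : TensorProduct K (⊤ : Submodule K Q) (Cd (TSys ev) e d) →ₗ[K]
      TensorProduct K (⊤ : Submodule K Q) (Cd (TSys ev') e' d),
      J = LinearMap.lTensor (⊤ : Submodule K Q) j := ⟨_, rfl⟩
  have hJinj : Function.Injective J := by
    rw [hJ]
    exact Module.Flat.lTensor_preserves_injective_linearMap j hjinj
  obtain ⟨L, hL⟩ : ∃ L : TensorProduct K (⊤ : Submodule K Q) (Cd (TSys ev') e' d) →ₗ[K]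
      Cd (TSys ev') e' d, ∀ (q : (⊤ : Submodule K Q)) (u : Cd (TSys ev') e' d),
        L (q ⊗ₜ[K] u) = a (q : Q) • u :=
    ⟨TensorProduct.lift (LinearMap.mk₂ K (fun (q : (⊤ : Submodule K Q)) (u : Cd (TSys ev') e' d) =>
      a (q : Q) • u)
      (by intro p p' v; rw [Submodule.coe_add, map_add, add_smul])
      (by intro c p v; rw [Submodule.coe_smul, map_smul, smul_eq_mul, mul_smul])
      (by intro p v v'; rw [smul_add])
      (by intro c p v; rw [smul_comm])), fun q u => by rw [TensorProduct.lift.tmul]; rfl⟩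
  have hA0 : ∀ ω, comp σ K ff ((F * β).mulVec (mulMap (TSys ev) ⊤ (Cd (TSys ev) e d) ω)) =
      mulMap (TSys ev') ⊤ (Cd (TSys ev') e' d) (J ω) := by
    intro ω
    induction ω with
    | zero => simp
    | add x y hx hy => rw [map_add, Matrix.mulVec_add, map_add, hx, hy, map_add, map_add]
    | tmul q v =>
      rw [mulMap_tmul, Matrix.mulVec_mulVec, hFβ, ← Matrix.mulVec_mulVec, hact0, hJ,
        LinearMap.lTensor_tmul, mulMap_tmul, hj]
  have hA1 : ∀ ω, comp σ K tt ((F * β).mulVec (mulMap (TSys ev) ⊤ (Cd (TSys ev) e d) ω)) =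
      ((L (J ω) : Cd (TSys ev') e' d) : St ι' → K) := by
    intro ω
    induction ω with
    | zero => simp
    | add x y hx hy =>
      rw [map_add, Matrix.mulVec_add, map_add, hx, hy, map_add, map_add]
      rfl
    | tmul q v =>
      rw [mulMap_tmul, Matrix.mulVec_mulVec, hFβ, ← Matrix.mulVec_mulVec, hact1, hJ,
        LinearMap.lTensor_tmul, hL, hc1 v v.2, Matrix.mulVec_zero, zero_add]
      rw [Submodule.coe_smul, hj]
  -- the hyperplane
  have hane : a ≠ 0 := by rw [ha]; exact hev _
  obtain ⟨qa, hqa⟩ : ∃ qa, a qa = 1 := by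
    obtain ⟨q, hq⟩ : ∃ q, a q ≠ 0 := by
      by_contra h
      push Not at h
      exact hane (LinearMap.ext h)
    exact ⟨(a q)⁻¹ • q, by rw [map_smul, smul_eq_mul, inv_mul_cancel₀ hq]⟩
  obtain ⟨P, hP⟩ : ∃ P : Submodule K Q, P = LinearMap.ker a := ⟨_, rfl⟩
  have hPtop : P ≠ ⊤ := by
    intro h
    apply hane
    rw [hP] at h
    exact LinearMap.ker_eq_top.mp h
  have hBon : Function.Injective (mulMap (TSys ev') P (Cd (TSys ev') e' d)) := by
    refine hBON K Q (St ι') (TSys ev') ι' ev' e' d hee' hdeg' hcom' ?_ ?_ P hPtop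
    · intro d' hd'' v hv hv'
      exact hLowA d' (by linarith) v hv hv'
    · intro P' hP1 hP2
      exact hStar' P' hP1 hP2 d (by linarith)
  obtain ⟨π, hπ⟩ : ∃ π : (⊤ : Submodule K Q) →ₗ[K] P, ∀ q : (⊤ : Submodule K Q),
      ((π q : P) : Q) = (q : Q) - a (q : Q) • qa :=
    ⟨{ toFun := fun q => ⟨(q : Q) - a (q : Q) • qa, by
        rw [hP, LinearMap.mem_ker, map_sub, map_smul, hqa, smul_eq_mul, mul_one, sub_self]⟩
       map_add' := fun q r => by
        apply Subtype.ext
        show ((q : Q) + r) - a ((q : Q) + r) • qa = ((q : Q) - a (q : Q) • qa) +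
          ((r : Q) - a (r : Q) • qa)
        rw [map_add, add_smul]
        abel
       map_smul' := fun c q => by
        apply Subtype.ext
        show (c • (q : Q)) - a (c • (q : Q)) • qa = c • ((q : Q) - a (q : Q) • qa)
        rw [map_smul, smul_sub, smul_eq_mul, mul_smul] }, fun q => rfl⟩
  obtain ⟨Pm, hPm⟩ : ∃ Pm : TensorProduct K (⊤ : Submodule K Q) (Cd (TSys ev') e' d) →ₗ[K]
      TensorProduct K P (Cd (TSys ev') e' d), Pm = LinearMap.rTensor (Cd (TSys ev') e' d) π :=
    ⟨_, rfl⟩
  obtain ⟨I, hI⟩ : ∃ I : TensorProduct K P (Cd (TSys ev') e' d) →ₗ[K]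
      TensorProduct K (⊤ : Submodule K Q) (Cd (TSys ev') e' d),
      I = LinearMap.rTensor (Cd (TSys ev') e' d) (Submodule.inclusion (le_top : P ≤ ⊤)) :=
    ⟨_, rfl⟩
  have hdec : ∀ ω, ω = I (Pm ω) + (⟨qa, trivial⟩ : (⊤ : Submodule K Q)) ⊗ₜ[K] (L ω) := by
    intro ω
    induction ω with
    | zero => simp
    | add x y hx hy =>
      rw [map_add, map_add, map_add, TensorProduct.tmul_add]
      nth_rewrite 1 [hx]
      nth_rewrite 1 [hy]
      abel
    | tmul q u =>
      rw [hPm, LinearMap.rTensor_tmul, hI, LinearMap.rTensor_tmul, hL, ← TensorProduct.smul_tmul,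
        ← TensorProduct.add_tmul]
      congr 1
      apply Subtype.ext
      show (q : Q) = ((π q : P) : Q) + a (q : Q) • qa
      rw [hπ]
      abel
  have hmI : ∀ ω, mulMap (TSys ev') ⊤ (Cd (TSys ev') e' d) (I ω) =
      mulMap (TSys ev') P (Cd (TSys ev') e' d) ω := by
    intro ω
    induction ω with
    | zero => simp
    | add x y hx hy => rw [map_add, map_add, map_add, hx, hy]
    | tmul q u =>
      rw [hI, LinearMap.rTensor_tmul, mulMap_tmul, mulMap_tmul]
      rfl
  -- conclusion
  rw [injective_iff_map_eq_zero]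
  intro ω hω
  apply hJinj
  rw [map_zero]
  have h0 := hA0 ω
  have h1 := hA1 ω
  rw [hω, Matrix.mulVec_zero, map_zero] at h0 h1
  have h2 : L (J ω) = 0 := Subtype.ext h1.symm
  have h3 := hdec (J ω)
  rw [h2, TensorProduct.tmul_zero, add_zero] at h3
  have h4 : Pm (J ω) = 0 := by
    apply hBon
    rw [map_zero, ← hmI, ← h3, ← h0]
  rw [h3, h4, map_zero]

end Pool.Agent.ABC3.H65
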